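import Pool.Agent.H225.AX3

/-!
# Almost primes of the form `2 k p + 1` with small `k` in exact patterns, for every `p`

Let `b ≥ 2` be a base, let `p ≤ b^{DK}` be ANY odd prime, and `[N, N + 2 b^K]` any block of integers below `p`.
Let `k = N + n`, where the digits of `n < b^K` are restricted: the `i`-th digit belongs to a set `A i`, where
the sets `A i` are arbitrary, depend on the place `i < K`, and have the only property that the number
`∏ |A i|` of these `n` is at least `e^{-δK} b^K`, where the constant `δ > 0` does not depend on `b`.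

Let `H` be ANY set of `s` integers in `[0, c K]` which does not cover all classes modulo a prime not dividing
`2 p`.  Then the sieve product `V` is at least `κ / K^s`, and (if the last digit can be chosen such that the
numbers `2 (k + h) p + 1` are prime to `b`) for at least `κ V ∏ |A i|` of these `k` the numbers
`2 (k + h) p + 1`, `h ∈ H`, have at most `r` prime factors, all larger than `b^{K/r}`, while ALL other numbers
`2 (k + j) p + 1`, `0 ≤ j ≤ c K`, have a prime factor `≤ b^{K/r}`.  For at most `C V ∏ |A i|` of these `k` the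
numbers `2 (k + h) p + 1`, `h ∈ H`, are all prime.  The constants do not depend on `p`, `N`, `H`.

The method is a Brun–Hooley sieve with weights, whose level of distribution is obtained from the Fourier
transform of the set of the integers with restricted digits at rationals (large sieve in blocks of
digits), see `Pool/Agent/Y816/PD`; the other numbers are excluded by the upper bound for patterns with one
more element and an average of the sieve products, see `Pool/Agent/H225/AX2`, `Pool/Agent/H225/AX3`.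
-/

set_option autoImplicit false

namespace Pool.Agent.Results.MP_2f88e5_nt.ExactPatterns

open Finset Filter

/-- `-H` does not cover all classes modulo a prime not dividing `q`. -/
def Admissible (q : ℕ) (H : Finset ℕ) : Prop :=
  ∀ p : ℕ, p.Prime → ¬ p ∣ q → ∃ m : ℕ, ∀ h ∈ H, ¬ p ∣ m + h

open Classical in
/-- The number of the classes modulo `p` which contain an element of `-H`. -/
noncomputable def nu (H : Finset ℕ) (p : ℕ) : ℕ :=
  ((range p).filter (fun n : ℕ => ∃ h ∈ H, p ∣ n + h)).card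

/-- The product of `1 - nu p / p` over the primes `p ≤ x` not dividing `q`. -/
noncomputable def V (q : ℕ) (H : Finset ℕ) (x : ℕ) : ℝ :=
  ∏ p ∈ ((Icc 1 x).filter Nat.Prime).filter (fun p => ¬ p ∣ q), (1 - (nu H p : ℝ) / p)

open Classical in
/-- The number of the `n < b ^ K` in `T`, whose `i`-th digit in base `b` belongs to `A i` for all
`i < K`. -/
noncomputable def count (b K : ℕ) (A : ℕ → Finset ℕ) (T : Set ℕ) : ℕ :=
  ((range (b ^ K)).filter (fun n => (∀ i < K, n / b ^ i % b ∈ A i) ∧ n ∈ T)).card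

/-- The number of choices of the digits. -/
noncomputable def choices (K : ℕ) (A : ℕ → Finset ℕ) : ℝ := ∏ i ∈ range K, ((A i).card : ℝ)

/-- All prime factors of `m` are larger than `z ^ (1 / r)`. -/
def Rough (r z m : ℕ) : Prop := ∀ p : ℕ, p.Prime → p ∣ m → z < p ^ r

open Pool.Agent.Y816.PD (ND ND_sub)

lemma V_eq (q : ℕ) (H : Finset ℕ) (x : ℕ) : Pool.Agent.H225.AX.V q H x = V q H x := by
  unfold V Pool.Agent.H225.AX.V
  conv_rhs => rw [prod_filter]
  refine prod_congr rfl fun p _ => ?_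
  by_cases h : p ∣ q
  · rw [if_pos h, if_neg (not_not.2 h)]
  · rw [if_neg h, if_pos h]
    rfl

/-- **Almost primes `2 k p + 1` with small `k` in exact patterns, for every `p`.** -/
theorem result (s D : ℕ) (hs : 1 ≤ s) :
    ∃ δ : ℝ, 0 < δ ∧ ∃ r₀ : ℕ, 2 ≤ r₀ ∧ ∀ r : ℕ, r₀ ≤ r → ∀ b : ℕ, 2 ≤ b →
      ∃ κ C c : ℝ, 0 < κ ∧ 0 < C ∧ 0 < c ∧ ∀ᶠ K : ℕ in atTop, ∀ p N : ℕ, p.Prime → p ≠ 2 →
        p ≤ b ^ (D * K) → N + 2 * b ^ K ≤ p → ∀ H : Finset ℕ, H.card = s →
        (∀ h ∈ H, (h : ℝ) ≤ c * K) → Admissible (2 * p) H →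
        ∀ A : ℕ → Finset ℕ, (∀ i < K, A i ⊆ range b) →
        (b : ℝ) ^ K ≤ Real.exp (δ * K) * choices K A →
        κ / (K : ℝ) ^ s ≤ V (2 * p) H (b ^ K) ∧
        ((∃ e ∈ A 0, ∀ h ∈ H, (2 * (N + e + h) * p + 1).Coprime b) → (∃ e ∈ A (K - 1), e ≠ 0) →
          κ * choices K A * V (2 * p) H (b ^ K) ≤
            count b K A {n | (∀ h ∈ H, 1 ≤ N + n + h ∧ N + n + h < p ∧
                Rough r (b ^ K) (2 * (N + n + h) * p + 1) ∧
                (2 * (N + n + h) * p + 1).primeFactorsList.length ≤ r) ∧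
              ∀ j : ℕ, (j : ℝ) ≤ c * K → j ∉ H → ¬ Rough r (b ^ K) (2 * (N + n + j) * p + 1)}) ∧
        (count b K A {n | ∀ h ∈ H, (2 * (N + n + h) * p + 1).Prime} : ℝ) ≤
          C * choices K A * V (2 * p) H (b ^ K) := by
  obtain ⟨δ, hδ, r₀, hr₀, h⟩ := Pool.Agent.H225.AX.exact s (D + 1) hs
  refine ⟨δ, hδ, r₀, hr₀, fun r hr b hb => ?_⟩
  obtain ⟨κ, C, c, hκ, hC, hc, h1⟩ := h r hr b hb
  refine ⟨κ, C, min 1 (c / 3), hκ, hC, lt_min one_pos (by positivity), ?_⟩
  filter_upwards [h1, eventually_ge_atTop 2] with K hK hK2 p N hp hp2 hpb hNp H hHk hHc hadm A hA hprod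
  have hp3 : 3 ≤ p := by
    have := hp.two_le
    omega
  have hKb : K < b ^ K := Nat.lt_pow_self (by omega)
  have hbK1 : 2 ≤ b ^ (K - 1) := hb.trans (Nat.le_self_pow (by omega) b)
  have hbb : b ^ (D * K) * b ^ K = b ^ ((D + 1) * K) := by
    rw [← pow_add]
    congr 1
    ring
  have h2b : 2 ≤ b ^ K := by omega
  have hq : 2 * p ≤ b ^ ((D + 1) * K) := by
    rw [← hbb, mul_comm 2 p]
    exact Nat.mul_le_mul hpb h2b
  have hD1 : 1 ≤ b ^ (D * K) := Nat.one_le_pow _ _ (by omega)
  have hN : N ≤ b ^ ((D + 1) * K) := by omega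
  have hphi : ((Nat.totient (2 * p) : ℕ) : ℝ) / ((2 * p : ℕ) : ℝ) ≥ 1 / 3 := by
    have e : Nat.totient (2 * p) = p - 1 := by
      rw [Nat.totient_mul ((Nat.coprime_primes Nat.prime_two hp).2 (Ne.symm hp2)),
        Nat.totient_prime hp, Nat.totient_two, one_mul]
    rw [e, ge_iff_le, div_le_div_iff₀ (by norm_num) (by positivity)]
    have h5 : 2 * p ≤ (p - 1) * 3 := by omega
    have : ((2 * p : ℕ) : ℝ) ≤ (((p - 1) * 3 : ℕ) : ℝ) := Nat.cast_le.2 h5
    push_cast at this ⊢
    linarith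
  have hwin : ∀ j : ℕ, (j : ℝ) ≤ min 1 (c / 3) * K →
      (j : ℝ) ≤ c * K * (((Nat.totient (2 * p) : ℕ) : ℝ) / ((2 * p : ℕ) : ℝ)) := by
    intro j hj
    have h5 : min 1 (c / 3) * (K : ℝ) ≤ c / 3 * K :=
      mul_le_mul_of_nonneg_right (min_le_right _ _) (Nat.cast_nonneg _)
    have h6 : c * K * (1 / 3) ≤ c * K * (((Nat.totient (2 * p) : ℕ) : ℝ) / ((2 * p : ℕ) : ℝ)) :=
      mul_le_mul_of_nonneg_left hphi (by positivity)
    linarith
  have hHK : ∀ h ∈ H, h ≤ K := by
    intro h hh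
    have h5 : min 1 (c / 3) * (K : ℝ) ≤ 1 * K :=
      mul_le_mul_of_nonneg_right (min_le_left _ _) (Nat.cast_nonneg _)
    have h6 : (h : ℝ) ≤ K := by linarith [hHc h hh]
    exact_mod_cast h6
  obtain ⟨h2, h3, h4⟩ := hK (2 * p) 1 N (by omega) hq (Nat.one_le_pow _ _ (by omega)) hN
    (Nat.coprime_one_right _) H hHk (fun h hh => hwin h (hHc h hh)) hadm A hA hprod
  rw [V_eq] at h2 h3 h4
  have e1 : ∀ m : ℕ, 2 * p * m + 1 = 2 * m * p + 1 := fun m => by ring
  simp only [e1] at h3 h4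
  refine ⟨h2, fun hcop htop => (h3 hcop htop).trans (Nat.cast_le.2 (ND_sub fun n hn hn1 hn2 =>
    ⟨hn1, fun h hh => ⟨?_, ?_, hn2.2.1 h hh⟩, fun j hj hjH => hn2.2.2 j (hwin j hj) hjH⟩)),
    le_trans (Nat.cast_le.2 ?_) h4⟩
  · have := hn2.1
    omega
  · have := hHK h hh
    omega
  · refine ND_sub fun n hn hn1 hn2 => ⟨hn1, fun h hh l hl hld => ?_⟩
    have hpr : (2 * (N + n + h) * p + 1).Prime := hn2 h hh
    rw [(Nat.prime_dvd_prime_iff_eq hl hpr).1 hld]
    have h5 : n ≤ 2 * (N + n + h) * p + 1 := by nlinarith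
    have h6 : (2 * (N + n + h) * p + 1) ^ 2 ≤ (2 * (N + n + h) * p + 1) ^ r :=
      Nat.pow_le_pow_right hpr.pos (hr₀.trans hr)
    have h7 := hpr.two_le
    nlinarith

end Pool.Agent.Results.MP_2f88e5_nt.ExactPatterns
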