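import Pool.Agent.V11237.LP.One
import Pool.Agent.Results.MP_8bf9c2_nt.LawAfterPrimes

set_option autoImplicit false

/-!
# The integers `k` for which `2 k p + 1` is almost prime: the laws of the gaps, for every large prime `p`

Call `k` good if `2 k p + 1` has no prime factor up to `p ^ (1 / r)`; for `k < 2 (p + 1)` the number
`2 k p + 1` then has at most `3 r` prime factors. For EVERY large prime `p` and every interval
`(u, u + Y]` with `Y ≥ p ^ θ` the distances of the good `k` to the `l`-th good integer before them have the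
Gamma distributions of a Poisson process; and the good PRIMES `k` have the number which the uniform prime
pairs heuristic predicts, in all long intervals up to `X`, `X ≥ p ^ θ`, and the Poisson law after them.
-/

namespace Pool.Agent.Results.MP_2f88e5_nt.GapLaws

open Finset Filter
open Pool.Agent.V11237.LP

/-- No prime `ℓ ≤ p ^ (1 / r)` divides `2 k p + 1`. -/
def Good (p r k : ℕ) : Prop :=
  ∀ ℓ : ℕ, ℓ.Prime → (ℓ : ℝ) ≤ (p : ℝ) ^ (1 / (r : ℝ)) → ¬ ℓ ∣ 2 * k * p + 1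

/-- No prime `ℓ ≤ p ^ (1 / r)` divides `k` or `2 k p + 1`. -/
def Good' (p r k : ℕ) : Prop :=
  ∀ ℓ : ℕ, ℓ.Prime → (ℓ : ℝ) ≤ (p : ℝ) ^ (1 / (r : ℝ)) → ¬ ℓ ∣ k ∧ ¬ ℓ ∣ 2 * k * p + 1

open Classical in
/-- The number of the good `k` in `(u, u + Y]` with fewer than `l` good integers in `[k - T, k)`. -/
noncomputable def G (p r l T u Y : ℕ) : ℕ :=
  ((Ioc u (u + Y)).filter (fun k => Good p r k ∧
    ((Ico (k - T) k).filter (fun t => Good p r t)).card < l)).card

open Classical in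
/-- The PRIMES `k` in `(u, u + Y]` satisfying `Good'`. -/
noncomputable def P (p r u Y : ℕ) : Finset ℕ :=
  (Ioc u (u + Y)).filter (fun k => k.Prime ∧ Good' p r k)

open Classical in
/-- The number of the integers satisfying `Good'` in `(k, k + T]`. -/
noncomputable def Next (p r T k : ℕ) : ℕ :=
  ((Ioc k (k + T)).filter (fun t => Good' p r t)).card

/-- The product of `1 - 1 / ℓ` over the primes `ℓ ≤ p ^ (1 / r)` not dividing `2 p`. -/
noncomputable def V (p r : ℕ) : ℝ :=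
  ∏ ℓ ∈ (Icc 1 ⌊(p : ℝ) ^ (1 / (r : ℝ))⌋₊).filter (fun ℓ => ℓ.Prime ∧ ¬ ℓ ∣ 2 * p), (1 - 1 / (ℓ : ℝ))

open Classical in
/-- The product, over the primes `ℓ ≤ p ^ (1 / r)`, of `1 - 1 / ℓ` if `ℓ` divides `2 p` and of `1 - 2 / ℓ`
otherwise. -/
noncomputable def V' (p r : ℕ) : ℝ :=
  ∏ ℓ ∈ (Finset.range (⌊(p : ℝ) ^ (1 / (r : ℝ))⌋₊ + 1)).filter Nat.Prime,
    (1 - (if ℓ ∣ 2 * p then 1 else 2) / (ℓ : ℝ))

open Classical in
/-- The product of `1 - 1 / (ℓ - 1)` over the primes `ℓ ≤ p ^ (1 / r)` not dividing `2 p`. -/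
noncomputable def S (p r : ℕ) : ℝ :=
  ∏ ℓ ∈ (Finset.range (⌊(p : ℝ) ^ (1 / (r : ℝ))⌋₊ + 1)).filter
    (fun ℓ : ℕ => ℓ.Prime ∧ ¬ ℓ ∣ 2 * p), (1 - 1 / ((ℓ : ℝ) - 1))

lemma good_iff (p r k : ℕ) : One.Good (2 * p) 1 p r k ↔ Good p r k := by
  unfold One.Good Good
  have : 2 * p * k + 1 = 2 * k * p + 1 := by ring
  rw [this]

lemma G_eq (p r l T u Y : ℕ) : One.G (2 * p) 1 p r l T u Y = G p r l T u Y := by
  classical
  unfold One.G G
  congr 1
  ext n
  simp only [mem_filter, good_iff]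

lemma V_eq (p r : ℕ) : One.V (2 * p) p r = V p r := rfl

open Pool.Agent.Results.MP_8bf9c2_nt in
lemma good_iff' (p r k : ℕ) : LawAfterPrimes.Good 1 (2 * p) r p k ↔ Good' p r k := by
  unfold LawAfterPrimes.Good Good'
  have : (1 : ℤ) + (k : ℤ) * ((2 * p : ℕ) : ℤ) = ((2 * k * p + 1 : ℕ) : ℤ) := by push_cast; ring
  simp only [this, Int.natCast_dvd_natCast]

open Pool.Agent.Results.MP_8bf9c2_nt in
lemma P_eq (p r u Y : ℕ) : LawAfterPrimes.P 1 (2 * p) r p u Y = P p r u Y := by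
  classical
  unfold LawAfterPrimes.P P
  ext n
  simp only [mem_filter, good_iff']

open Pool.Agent.Results.MP_8bf9c2_nt in
lemma W_eq (p r T k : ℕ) : LawAfterPrimes.W 1 (2 * p) r p T k = Next p r T k := by
  classical
  unfold LawAfterPrimes.W Next
  congr 1
  ext n
  simp only [mem_filter, good_iff']

lemma dvd_eq (p ℓ : ℕ) : ((ℓ : ℤ) ∣ 1 * ((2 * p : ℕ) : ℤ)) = (ℓ ∣ 2 * p) := by
  rw [one_mul]
  exact propext Int.natCast_dvd_natCast

open Pool.Agent.Results.MP_8bf9c2_nt in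
lemma V_eq' (p r : ℕ) : LawAfterPrimes.V 1 (2 * p) r p = V' p r := by
  classical
  unfold LawAfterPrimes.V V'
  simp only [dvd_eq]

open Pool.Agent.Results.MP_8bf9c2_nt in
lemma S_eq (p r : ℕ) : LawAfterPrimes.S 1 (2 * p) r p = S p r := by
  classical
  unfold LawAfterPrimes.S S
  simp only [dvd_eq]

/-- few prime factors -/
lemma few {p r k : ℕ} (hr : 1 ≤ r) (hp : 5 ≤ p) (hk : k < 2 * (p + 1)) (hg : Good p r k) :
    (2 * k * p + 1).primeFactorsList.length ≤ 3 * r := by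
  have hr0 : (0 : ℝ) < r := by exact_mod_cast hr
  have hN2 : (5 : ℝ) ≤ p := by exact_mod_cast hp
  have hN0 : (0 : ℝ) < p := by linarith
  have hpow : ((p : ℝ) ^ (1 / (r : ℝ))) ^ r = p := by
    rw [← Real.rpow_natCast, ← Real.rpow_mul hN0.le, one_div, inv_mul_cancel₀ hr0.ne', Real.rpow_one]
  apply Pool.Agent.Y879.GL.few_of_rough ((p : ℝ) ^ (1 / (r : ℝ)))
    (Real.one_lt_rpow (by linarith) (by positivity)) _ _ (by omega)
  · rw [mul_comm 3 r, pow_mul, hpow]
    have h1 : 2 * k * p + 1 ≤ p ^ 3 := by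
      have hk2 : k ≤ 2 * p + 1 := by omega
      calc 2 * k * p + 1 ≤ 2 * (2 * p + 1) * p + 1 := by gcongr
        _ ≤ p ^ 3 := by
          have g1 : 5 * (p * p) ≤ p * (p * p) := Nat.mul_le_mul_right _ hp
          have g2 : 5 * p ≤ p * p := Nat.mul_le_mul_right _ hp
          have g3 : p ^ 3 = p * (p * p) := by ring
          rw [g3]
          nlinarith
    exact_mod_cast h1
  · intro q hq hqd
    by_contra hcon
    rw [not_lt] at hcon
    exact hg q hq hcon hqd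

/-- **The `k` with `2 k p + 1` almost prime, for every large prime `p`**: few prime factors; the gap laws
of these `k` in every interval of length `Y ≥ p ^ θ`; the number of the PRIMES among them and the Poisson
law after these primes. -/
theorem result (θ δ : ℝ) (hθ : 0 < θ) (hδ : 0 < δ) (hδ1 : δ ≤ 1) (l₀ : ℕ) (x₀ ε : ℝ) (hε : 0 < ε)
    (hε1 : ε ≤ 1) :
    ∃ r₀ : ℕ, ∀ r : ℕ, r₀ ≤ r → ∃ p₀ : ℕ, ∀ p : ℕ, p₀ ≤ p → p.Prime →
      (∀ k : ℕ, k < 2 * (p + 1) → Good p r k → (2 * k * p + 1).primeFactorsList.length ≤ 3 * r) ∧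
      (∀ u Y : ℕ, (p : ℝ) ^ θ ≤ Y → ∀ l T : ℕ, (l ≤ l₀ ∨ T * V p r ≤ x₀) →
        |(G p r l T u Y : ℝ) - Y * V p r *
          ∑ j ∈ range l, Real.exp (-(T * V p r)) * (T * V p r) ^ j / j.factorial| ≤
        ε * (Y * V p r)) ∧
      ∀ X : ℕ, (p : ℝ) ^ θ ≤ X → ∀ u Y : ℕ, δ * X ≤ Y → u + Y ≤ X →
        |((P p r u Y).card : ℝ) * Real.log X - Y * S p r| ≤ ε * (Y * S p r) ∧
        ∀ T : ℕ, T * V' p r ≤ x₀ → ∀ B : Finset ℕ,
        |(((P p r u Y).filter (fun k => Next p r T k ∈ B)).card : ℝ) -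
          (P p r u Y).card *
            ∑ j ∈ B, Real.exp (-(T * V' p r)) * (T * V' p r) ^ j / j.factorial| ≤
          ε * (P p r u Y).card := by
  obtain ⟨r1, _, h1⟩ := One.gaps 2 θ (by norm_num) hθ l₀ x₀ ε hε
  obtain ⟨r2, h2⟩ := Pool.Agent.Results.MP_8bf9c2_nt.LawAfterPrimes.result 2 1 θ δ (by norm_num) one_pos
    hθ hδ hδ1 x₀ ε hε hε1
  refine ⟨max (max r1 r2) 1, ?_⟩
  intro r hr
  have hr1 : r1 ≤ r := (le_max_left _ _).trans ((le_max_left _ _).trans hr)
  have hr2 : r2 ≤ r := (le_max_right _ _).trans ((le_max_left _ _).trans hr)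
  have hr3 : 1 ≤ r := (le_max_right _ _).trans hr
  obtain ⟨n1, k1⟩ := h1 r hr1 3
  obtain ⟨n2, k2⟩ := eventually_atTop.1 (h2 r hr2)
  refine ⟨max (max n1 n2) 5, ?_⟩
  intro p hp hpp
  have hp1 : n1 ≤ p := (le_max_left _ _).trans ((le_max_left _ _).trans hp)
  have hp2 : n2 ≤ p := (le_max_right _ _).trans ((le_max_left _ _).trans hp)
  have hp5 : 5 ≤ p := (le_max_right _ _).trans hp
  have hpr : (5 : ℝ) ≤ p := by exact_mod_cast hp5
  have e2 : (p : ℝ) ^ (2 : ℝ) = (p : ℝ) ^ 2 := Real.rpow_two _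
  refine ⟨fun k hk hg => few hr3 hp5 hk hg, ?_, ?_⟩
  · intro u Y hY l T hT
    have hcop : Nat.Coprime 2 p := by
      rw [Nat.coprime_primes Nat.prime_two hpp]
      omega
    have htot : (2 * p).totient = p - 1 := by
      rw [Nat.totient_mul hcop, Nat.totient_prime hpp]
      simp
    have key := k1 p hp1 (2 * p) 1 (by omega) (by rw [e2]; push_cast; nlinarith)
      (by rw [e2]; push_cast; nlinarith) (Nat.coprime_one_right _) (by
        rw [htot, Nat.cast_sub (by omega)]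
        push_cast
        linarith) u Y hY l T hT
    rw [G_eq, V_eq] at key
    exact key
  · intro X hX u Y hY huY
    have key := k2 p hp2 1 (2 * p) one_ne_zero (by omega) isCoprime_one_left
      ⟨p, by push_cast; ring⟩ (by rw [e2, Int.cast_one, abs_one]; nlinarith)
      (by rw [e2]; push_cast; nlinarith) (fun h => by omega) X hX u Y hY huY
    obtain ⟨g1, g2⟩ := key
    rw [P_eq, S_eq] at g1
    refine ⟨g1, fun T hT B => ?_⟩
    have g3 := g2 T (by rw [V_eq']; exact hT) B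
    rw [P_eq, V_eq'] at g3
    simp only [W_eq] at g3
    exact g3

end Pool.Agent.Results.MP_2f88e5_nt.GapLaws
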