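import Pool.Agent.H225.LF2

/-!
# Almost primes `2 k p + 1` with small `k` with restricted digits

Let `p` be an odd prime, `b ≥ 2` a base and `[M, M + b^K)` any block of integers less than `2 (p + 1)`
without positive multiples of `p`, where `b^K` is at least a fixed (arbitrarily small) power of `p`.
Write `k = M + t` and let the digits of `t < b^K` be restricted: the `i`-th digit belongs to a set `A i`,
where the sets `A i` are arbitrary, depend on the place `i < K`, and have the only property that the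
number `∏ |A i|` of these `k` is at least `e^{-δK} b^K`, where the constant `δ > 0` does not depend on
`b`.

Then for EVERY such `p` at least `κ ∏ |A i| / K` of these `k` are admissible for `p` and such that
`2 k p + 1` has at most `r` prime factors, all larger than `b^{K/r}` (if the last digit can be chosen
such that this number is prime to `b`), and for at most `C ∏ |A i| / K` of these `k` the number
`2 k p + 1` is prime.
-/

set_option autoImplicit false

namespace Pool.Agent.Results.MP_2f88e5_nt.RestrictedDigits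

open Finset Filter

/-- `k` is admissible for `p`. -/
def Admissible (p k : ℕ) : Prop := 1 ≤ k ∧ k < 2 * (p + 1) ∧ ¬ p ∣ k

open Classical in
/-- The number of the `t < b ^ K`, whose `i`-th digit in base `b` belongs to `A i` for all `i < K`, such
that `M + t` belongs to `T`. -/
noncomputable def count (b K M : ℕ) (A : ℕ → Finset ℕ) (T : Set ℕ) : ℕ :=
  ((range (b ^ K)).filter (fun t => (∀ i < K, t / b ^ i % b ∈ A i) ∧ M + t ∈ T)).card

/-- The number of choices of the digits. -/
noncomputable def choices (K : ℕ) (A : ℕ → Finset ℕ) : ℝ := ∏ i ∈ range K, ((A i).card : ℝ)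

/-- `m` has at most `r` prime factors, counted with multiplicity, and all of them are larger than
`z ^ (1 / r)`. -/
def AlmostPrime (r z m : ℕ) : Prop :=
  (∀ p : ℕ, p.Prime → p ∣ m → z < p ^ r) ∧ m.primeFactorsList.length ≤ r

open Pool.Agent.Y816.PD (WG NA ND ND_sub NA_nonneg TP WG_bounds WG_nonneg)
open Pool.Agent.H225.LF (rt rt_shift rt_le rt_lt Adm rt_eq_disc disc)

/-- the coefficient -/
def al (p : ℕ) : Fin 1 → ℤ := fun _ => ((2 * p : ℕ) : ℤ)

/-- the constant term -/
def be : Fin 1 → ℤ := fun _ => 1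

/-- the form at `k = M + t` -/
def F (p M : ℕ) : Fin 1 → ℕ → ℤ := fun i t => al p i * ((M + t : ℕ) : ℤ) + be i

lemma F_eq (p M : ℕ) (i : Fin 1) (t : ℕ) : F p M i t = ((2 * (M + t) * p + 1 : ℕ) : ℤ) := by
  unfold F al be
  push_cast
  ring

lemma adm0 (p : ℕ) : Adm (al p) be := by
  intro q hq
  refine ⟨0, fun i hi => ?_⟩
  unfold al be at hi
  have h1 : (q : ℤ) ∣ ((1 : ℕ) : ℤ) := by simpa using hi
  exact hq.one_lt.ne' (Nat.dvd_one.1 (Int.natCast_dvd_natCast.1 h1))

open Classical in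
/-- the sieve product is at most `4` times the one for the primes -/
lemma WG_le {p : ℕ} (hp : p.Prime) (M x : ℕ) :
    WG (fun t => ∏ i, F p M i t) x ≤ 4 * WG (TP {0} 0) x := by
  have hfac : ∀ q ∈ (Icc 1 x).filter Nat.Prime,
      1 - (((range q).filter (fun t : ℕ => (q : ℤ) ∣ ∏ i, F p M i t)).card : ℝ) / q ≤
      (if q ∣ 2 * p then 2 else 1) *
        (1 - (((range q).filter (fun t : ℕ => (q : ℤ) ∣ TP {0} 0 t)).card : ℝ) / q) := by
    intro q hq
    have hqq := (mem_filter.1 hq).2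
    have hq0 : (0 : ℝ) < q := by exact_mod_cast hqq.pos
    have hq2 : (2 : ℝ) ≤ q := by exact_mod_cast hqq.two_le
    have c2 := Pool.Agent.H225.EX.card_TP {0} 0 hqq
    have c3 : ((range q).filter (fun n : ℕ => ∃ h ∈ ({0} : Finset ℕ), q ∣ n + h)).card = 1 := by
      rw [card_eq_one]
      refine ⟨0, ?_⟩
      ext n
      simp only [mem_filter, mem_range, mem_singleton, exists_eq_left, add_zero]
      constructor
      · rintro ⟨hn, hd⟩
        exact Nat.eq_zero_of_dvd_of_lt hd hn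
      · rintro rfl
        exact ⟨hqq.pos, dvd_zero _⟩
    rw [c2, c3, Nat.cast_one]
    have c1 : ((range q).filter (fun t : ℕ => (q : ℤ) ∣ ∏ i, F p M i t)).card = rt (al p) be q := by
      convert rt_shift (al p) be hqq M
      rfl
    rw [c1]
    have h1 : 1 / (q : ℝ) ≤ 1 / 2 := one_div_le_one_div_of_le (by norm_num) hq2
    split_ifs with h
    · have : (0 : ℝ) ≤ (rt (al p) be q : ℝ) / q := by positivity
      linarith
    · have hd : ¬ q ∣ disc (al p) be := by
        intro h2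
        apply h
        unfold disc al be at h2
        simpa [Int.natAbs_mul] using h2
      rw [rt_eq_disc hqq hd, Nat.cast_one, one_mul]
  have hprod : ∏ q ∈ (Icc 1 x).filter Nat.Prime, (if q ∣ 2 * p then (2 : ℝ) else 1) ≤ 4 := by
    rw [prod_ite, prod_const, prod_const_one, mul_one]
    have h1 : ((Icc 1 x).filter Nat.Prime).filter (fun q => q ∣ 2 * p) ⊆ {2, p} := by
      intro q hq
      rw [mem_filter, mem_filter] at hq
      rw [mem_insert, mem_singleton]
      rcases (Nat.Prime.dvd_mul hq.1.2).1 hq.2 with h | h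
      · left
        exact (Nat.prime_dvd_prime_iff_eq hq.1.2 Nat.prime_two).1 h
      · right
        exact (Nat.prime_dvd_prime_iff_eq hq.1.2 hp).1 h
    have h2 := (card_le_card h1).trans card_le_two
    calc (2 : ℝ) ^ _ ≤ 2 ^ 2 := pow_le_pow_right₀ (by norm_num) h2
      _ = 4 := by norm_num
  have hnn : ∀ (G : ℕ → ℤ), ∀ q ∈ (Icc 1 x).filter Nat.Prime,
      0 ≤ 1 - (((range q).filter (fun t : ℕ => (q : ℤ) ∣ G t)).card : ℝ) / q := by
    intro G q hq
    have hqq := (mem_filter.1 hq).2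
    have hq0 : (0 : ℝ) < q := by exact_mod_cast hqq.pos
    rw [sub_nonneg, div_le_one hq0]
    have h1 := card_filter_le (range q) (fun t : ℕ => (q : ℤ) ∣ G t)
    rw [card_range] at h1
    exact_mod_cast h1
  have e1 : WG (fun t => ∏ i, F p M i t) x = ∏ q ∈ (Icc 1 x).filter Nat.Prime,
      (1 - (((range q).filter (fun t : ℕ => (q : ℤ) ∣ ∏ i, F p M i t)).card : ℝ) / q) := by
    unfold WG
    refine prod_congr rfl fun q _ => ?_
    congr!
  have e2 : WG (TP {0} 0) x = ∏ q ∈ (Icc 1 x).filter Nat.Prime,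
      (1 - (((range q).filter (fun t : ℕ => (q : ℤ) ∣ TP {0} 0 t)).card : ℝ) / q) := by
    unfold WG
    refine prod_congr rfl fun q _ => ?_
    congr!
  rw [e1, e2]
  calc ∏ q ∈ (Icc 1 x).filter Nat.Prime,
      (1 - (((range q).filter (fun t : ℕ => (q : ℤ) ∣ ∏ i, F p M i t)).card : ℝ) / q)
      ≤ ∏ q ∈ (Icc 1 x).filter Nat.Prime, ((if q ∣ 2 * p then 2 else 1) *
        (1 - (((range q).filter (fun t : ℕ => (q : ℤ) ∣ TP {0} 0 t)).card : ℝ) / q)) :=
        prod_le_prod (hnn _) hfac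
    _ = _ := prod_mul_distrib
    _ ≤ _ := mul_le_mul_of_nonneg_right hprod (prod_nonneg (hnn _))

/-- **Almost primes `2 k p + 1` with `k` with restricted digits.** -/
theorem result (E : ℕ) :
    ∃ δ : ℝ, 0 < δ ∧ ∃ r₀ : ℕ, 2 ≤ r₀ ∧ ∀ r : ℕ, r₀ ≤ r → ∀ b : ℕ, 2 ≤ b →
      ∃ κ C : ℝ, 0 < κ ∧ 0 < C ∧ ∀ᶠ K : ℕ in atTop, ∀ p : ℕ, p.Prime → p ≠ 2 → p ≤ b ^ (E * K) →
        ∀ M : ℕ, M + b ^ K ≤ 2 * (p + 1) → (∀ t < b ^ K, p ∣ M + t → M + t = 0) →
        ∀ A : ℕ → Finset ℕ, (∀ i < K, A i ⊆ range b) →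
        (b : ℝ) ^ K ≤ Real.exp (δ * K) * choices K A →
        ((∃ e ∈ A 0, (2 * (M + e) * p + 1).Coprime b) → (∃ e ∈ A (K - 1), e ≠ 0) →
          κ * choices K A / K ≤ count b K M A {k | Admissible p k ∧
            AlmostPrime r (b ^ K) (2 * k * p + 1)}) ∧
        (count b K M A {k | (2 * k * p + 1).Prime} : ℝ) ≤ C * choices K A / K := by
  classical
  obtain ⟨δ, hδ, r₀, hr₀, h⟩ := Pool.Agent.H225.DG.gen 1 1 (2 * E + 4) (by norm_num) (by norm_num)
  refine ⟨δ, hδ, r₀, hr₀, fun r hr b hb => ?_⟩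
  obtain ⟨κ, C, hκ, hC, h1⟩ := h r hr b hb
  obtain ⟨v, hv, hW⟩ := Pool.Agent.H225.VL.lower 1 b (by norm_num) hb
  obtain ⟨_, Cv, _, hCv, hW0⟩ := WG_bounds {0} (fun p hp => ⟨1, fun h hh => by
    rw [mem_singleton] at hh
    subst hh
    simpa using hp.one_lt.ne'⟩) 1 (card_singleton 0) b hb
  refine ⟨κ * v, C * (4 * Cv), by positivity, by positivity, ?_⟩
  filter_upwards [h1, hW, hW0, eventually_ge_atTop 2] with K hK hWK hW0K hK2 p hp hp2 hpE M hM hmult
    A hA hprod
  have hbK : 4 ≤ b ^ K := by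
    calc 4 = 2 ^ 2 := by norm_num
      _ ≤ 2 ^ K := Nat.pow_le_pow_right (by norm_num) hK2
      _ ≤ b ^ K := Nat.pow_le_pow_left hb K
  have hbK1 : 2 ≤ b ^ (K - 1) := hb.trans (Nat.le_self_pow (by omega) b)
  have hpp := hp.two_le
  have hsize : ∀ t : ℕ, t < b ^ K → ∀ i, (F p M i t).natAbs ≤ b ^ ((2 * E + 4) * K) := by
    intro t ht i
    rw [F_eq, Int.natAbs_natCast]
    have e : b ^ ((2 * E + 4) * K) = (b ^ (E * K) * b ^ (E * K)) * (b ^ K * b ^ K * b ^ K * b ^ K) := by
      rw [← pow_add, ← pow_add, ← pow_add, ← pow_add, ← pow_add]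
      congr 1
      ring
    rw [e]
    have h2 : M + t + 1 ≤ 2 * (p + 1) := by omega
    have h3 : p * p ≤ b ^ (E * K) * b ^ (E * K) := Nat.mul_le_mul hpE hpE
    have h4 : 4 * 4 ≤ b ^ K * b ^ K := Nat.mul_le_mul hbK hbK
    have h5 : 16 ≤ b ^ K * b ^ K * b ^ K * b ^ K := by
      have : 1 ≤ b ^ K * b ^ K := by omega
      calc 16 ≤ b ^ K * b ^ K * 1 := by omega
        _ ≤ b ^ K * b ^ K * (b ^ K * b ^ K) := Nat.mul_le_mul_left _ this
        _ = _ := by ring
    calc 2 * (M + t) * p + 1 ≤ (p * p) * 16 := by nlinarith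
      _ ≤ _ := Nat.mul_le_mul h3 h5
  have hpoly : ∀ i, ∃ P : Polynomial ℤ, P.natDegree ≤ 1 ∧ ∀ t : ℕ, P.eval (t : ℤ) = F p M i t := by
    intro i
    refine ⟨Polynomial.C (al p i) * Polynomial.X + Polynomial.C (al p i * M + be i),
        Polynomial.natDegree_linear_le, fun n => ?_⟩
    simp only [Polynomial.eval_add, Polynomial.eval_mul, Polynomial.eval_C, Polynomial.eval_X, F]
    push_cast
    ring
  have hadm : ∀ q : ℕ, q.Prime → ∃ t : ℕ, ∀ i, ¬ (q : ℤ) ∣ F p M i t := by
    intro q hq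
    refine ⟨M * (q - 1), fun i hi => ?_⟩
    rw [F_eq] at hi
    have hq1 : 1 ≤ q := hq.pos
    have e : M + M * (q - 1) = M * q := by
      obtain ⟨q', rfl⟩ := Nat.exists_eq_add_of_le hq1
      rw [Nat.add_sub_cancel_left]
      ring
    rw [e, Int.natCast_dvd_natCast] at hi
    have h2 : q ∣ 2 * (M * q) * p := ⟨2 * M * p, by ring⟩
    exact hq.one_lt.ne' (Nat.dvd_one.1 ((Nat.dvd_add_right h2).1 hi))
  obtain ⟨h2, h3⟩ := hK (F p M) hpoly hadm hsize A hA hprod
  have hNA : 0 ≤ choices K A := NA_nonneg K A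
  have hVlow : v / (K : ℝ) ^ 1 ≤ WG (fun t => ∏ i, F p M i t) (b ^ K) :=
    hWK _ (fun q hq => by
        have h5 := rt_le (adm0 p) hq
        rw [← rt_shift (al p) be hq M] at h5
        convert h5
        rfl)
      (fun q hq => by
        have h5 := rt_lt (adm0 p) hq
        rw [← rt_shift (al p) be hq M] at h5
        convert h5
        rfl)
  have hVup : WG (fun t => ∏ i, F p M i t) (b ^ K) ≤ 4 * (Cv / K) := by
    have h5 := (hW0K 0).2
    rw [pow_one] at h5
    exact (WG_le hp M _).trans (mul_le_mul_of_nonneg_left h5 (by norm_num))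
  constructor
  · rintro ⟨e, he, hc⟩ htop
    refine le_trans ?_ ((h2 ⟨e, he, fun i => ?_⟩ htop).trans (Nat.cast_le.2 (ND_sub
      fun t ht ht1 ht2 => ⟨ht1, ?_⟩)))
    · calc κ * v * choices K A / K = κ * choices K A * (v / (K : ℝ) ^ 1) := by
            rw [pow_one]
            ring
        _ ≤ _ := mul_le_mul_of_nonneg_left hVlow (mul_nonneg hκ.le hNA)
    · rw [F_eq, Int.natAbs_natCast]
      exact hc
    · have g0 := ht2.2 0
      rw [F_eq, Int.natAbs_natCast] at g0
      have h6 := ht2.1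
      exact ⟨⟨by omega, by omega, fun hd => by have := hmult t ht hd; omega⟩, g0⟩
  · refine (Nat.cast_le.2 ?_).trans (h3.trans ?_)
    · refine ND_sub fun t ht ht1 ht2 => ⟨ht1, fun i => ?_⟩
      rw [F_eq, Int.natAbs_natCast]
      refine ⟨ht2, ?_⟩
      have h6 : (2 * (M + t) * p + 1) ^ 2 ≤ (2 * (M + t) * p + 1) ^ r :=
        Nat.pow_le_pow_right (by omega) (hr₀.trans hr)
      have h7 : t ≤ 2 * (M + t) * p := by nlinarith
      nlinarith
    · calc C * NA K A * WG (fun t => ∏ i, F p M i t) (b ^ K) ≤ C * NA K A * (4 * (Cv / K)) :=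
            mul_le_mul_of_nonneg_left hVup (mul_nonneg hC.le hNA)
        _ = C * (4 * Cv) * NA K A / K := by ring

end Pool.Agent.Results.MP_2f88e5_nt.RestrictedDigits
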